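import Pool.Agent.Helper6.O3.St

/-!
# Project O3, module ZP (MP_d49380_lc)
-/

set_option autoImplicit false

namespace Pool.Agent.Helper80.O3

open Pool.Agent.Helper6.O3 Filter Topology
open Pool.Agent.Helper99.DF (T TL sq chk Cert ver StVER StTRA StCMP StSND StPR1 StPRC StVP)

/-- Module ZP. -/
theorem hZP : StZP := by
  classical
  intro c h0 h1 hI
  by_cases hM : ∀ M, ∃ n, M ≤ n ∧ c n = 0 ∧ c (n + 1) = 0
  · exact Or.inr hM
  · left
    push Not at hM
    obtain ⟨M, hM⟩ := hM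
    have hspec : c (Nat.findGreatest (fun n => c n = 0 ∧ c (n + 1) = 0) M) = 0 ∧
        c (Nat.findGreatest (fun n => c n = 0 ∧ c (n + 1) = 0) M + 1) = 0 :=
      Nat.findGreatest_spec (P := fun n => c n = 0 ∧ c (n + 1) = 0) (Nat.zero_le M) ⟨h0, h1⟩
    have hgt : ∀ k, Nat.findGreatest (fun n => c n = 0 ∧ c (n + 1) = 0) M < k →
        ¬ (c k = 0 ∧ c (k + 1) = 0) := by
      intro k hk
      rcases le_or_gt k M with hkM | hkM
      · exact Nat.findGreatest_is_greatest (P := fun n => c n = 0 ∧ c (n + 1) = 0) hk hkM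
      · exact fun h => hM k hkM.le h.1 h.2
    generalize Nat.findGreatest (fun n => c n = 0 ∧ c (n + 1) = 0) M = n at hspec hgt
    refine ⟨n, hspec.1, hspec.2, fun k hk => ?_⟩
    have hnn : ∀ j, 0 ≤ c j := fun j => hI 0 j
    refine lt_of_le_of_ne (hnn k) fun hk0 => ?_
    have h2 : 0 ≤ T c k := hI 1 k
    unfold T at h2
    rw [← hk0] at h2
    have h3 : c (k - 1) * c (k + 1) = 0 :=
      le_antisymm (by linarith) (mul_nonneg (hnn _) (hnn _))
    rcases mul_eq_zero.mp h3 with h4 | h4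
    · refine hgt (k - 1) (by omega) ⟨h4, ?_⟩
      rw [show k - 1 + 1 = k by omega]
      exact hk0.symm
    · exact hgt k (by omega) ⟨hk0.symm, h4⟩

end Pool.Agent.Helper80.O3
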